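import Pool.Agent.Lib.MP_4fbe7c_an.WH.Iface

set_option autoImplicit false

open Set

namespace Pool.Agent.Lib.MP_4fbe7c_an.WH.H59

open Pool.Agent.Lib.MP_4fbe7c_an.SD Pool.Agent.Lib.MP_4fbe7c_an.FC
open Pool.Agent.Lib.MP_4fbe7c_an.WH

/-- QDE: quartic terms. -/
theorem qde (hYI : YIzStatement) : QDeStatement := by
  intro L b ε κ Cy m N d u v w t k hctx ht hreg hk
  have hpres : Pres L u k := by
    simpa [PS] using hk
  obtain ⟨_, _, hv2⟩ := hYI L (2 * b) m N d u v w k hctx hpres t ht
  have hL := hctx.hL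
  have hd := hctx.hd k
  set z := zq L u v w k t with hz
  set y := yy L u v k t with hy
  set g := gm L u k t with hg
  have hy' : d k * y ≤ Cy * ε ^ 2 := hreg.y k hk
  have huc : ContinuousOn (u k t) (Icc 0 L) :=
    fun x hx => (hctx.sol.dx k t ht x hx).continuousWithinAt
  have hvc : ContinuousOn (v k t) (Icc 0 L) :=
    fun x hx => (hctx.sol.dxx k t ht x hx).continuousWithinAt
  have hu0 : ∀ x ∈ Icc 0 L, 0 < u k t x := hpres t ht
  have hqc : ContinuousOn (fun x => v k t x / u k t x) (Icc 0 L) :=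
    hvc.div huc (fun x hx => (hu0 x hx).ne')
  have hz0 : 0 ≤ z := by
    rw [hz]
    exact intervalIntegral.integral_nonneg hL.le (fun x _ => sq_nonneg _)
  have hy0 : 0 ≤ y := by
    rw [hy]
    exact intervalIntegral.integral_nonneg hL.le (fun x _ => sq_nonneg _)
  have hg0 : 0 ≤ g := by
    have h0 : (0:ℝ) ∈ Icc 0 L := ⟨le_refl _, hL.le⟩
    have h1 := hreg.up k hk 0 h0
    have h2 := hu0 0 h0
    by_contra hcon
    push Not at hcon
    have h3 : g * Real.exp κ < 0 := mul_neg_of_neg_of_pos hcon (Real.exp_pos _)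
    linarith
  have hint : ∀ f : ℝ → ℝ, ContinuousOn f (Icc 0 L) → IntervalIntegrable f MeasureTheory.volume 0 L := by
    intro f hf
    refine ContinuousOn.intervalIntegrable ?_
    rw [uIcc_of_le hL.le]; exact hf
  -- the pointwise bound
  have hpt : ∀ x ∈ Icc 0 L, (d k * (v k t x / u k t x) ^ 2) ^ 2
      ≤ d k ^ 2 * (L * z) * (v k t x / u k t x) ^ 2 := by
    intro x hx
    have h1 := hv2 x hx
    have h2 : 0 ≤ (v k t x / u k t x) ^ 2 := sq_nonneg _
    have h3 : (d k * (v k t x / u k t x) ^ 2) ^ 2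
        = d k ^ 2 * ((v k t x / u k t x) ^ 2 * (v k t x / u k t x) ^ 2) := by ring
    rw [h3, mul_assoc]
    refine mul_le_mul_of_nonneg_left ?_ (sq_nonneg _)
    exact mul_le_mul_of_nonneg_right h1 h2
  have hfin : d k ^ 2 * (L * z) * y ≤ L * Cy * ε ^ 2 * (d k * z) := by
    have : d k ^ 2 * (L * z) * y = L * (d k * z) * (d k * y) := by ring
    rw [this]
    have h4 : 0 ≤ L * (d k * z) := by positivity
    have := mul_le_mul_of_nonneg_left hy' h4
    nlinarith
  constructor
  · have h1 : ue L d u v k t ≤ ∫ x in (0)..L,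
        g * Real.exp κ * (d k ^ 2 * (L * z) * (v k t x / u k t x) ^ 2) := by
      unfold ue
      refine intervalIntegral.integral_mono_on hL.le (hint _ ?_) (hint _ ?_) (fun x hx => ?_)
      · exact huc.mul (((continuousOn_const.mul (hqc.pow 2))).pow 2)
      · exact continuousOn_const.mul (continuousOn_const.mul (hqc.pow 2))
      · have h2 := hreg.up k hk x hx
        exact mul_le_mul h2 (hpt x hx) (sq_nonneg _) (by positivity)
    rw [intervalIntegral.integral_const_mul, intervalIntegral.integral_const_mul] at h1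
    have h5 : ∫ x in (0)..L, (v k t x / u k t x) ^ 2 = y := rfl
    rw [h5] at h1
    refine h1.trans ?_
    have h6 : g * Real.exp κ * (d k ^ 2 * (L * z) * y)
        ≤ g * Real.exp κ * (L * Cy * ε ^ 2 * (d k * z)) :=
      mul_le_mul_of_nonneg_left hfin (by positivity)
    refine h6.trans (le_of_eq ?_)
    ring
  · have h1 : e2 L d u v k t ≤ ∫ x in (0)..L,
        (d k ^ 2 * (L * z) * (v k t x / u k t x) ^ 2) := by
      unfold e2
      refine intervalIntegral.integral_mono_on hL.le (hint _ ?_) (hint _ ?_) (fun x hx => hpt x hx)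
      · exact ((continuousOn_const.mul (hqc.pow 2))).pow 2
      · exact continuousOn_const.mul (hqc.pow 2)
    rw [intervalIntegral.integral_const_mul] at h1
    have h5 : ∫ x in (0)..L, (v k t x / u k t x) ^ 2 = y := rfl
    rw [h5] at h1
    exact h1.trans hfin

end Pool.Agent.Lib.MP_4fbe7c_an.WH.H59
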